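import Pool.Agent.Lib.MP_1c8e06_ag.AJ.Fin

set_option autoImplicit false

namespace Pool.Agent.Results.MP_1c8e06_ag.CharTwo

/-- The wild part of the inertia conjecture in characteristic two, all groups: if the conjugates
of a 2-subgroup `P` generate the finite group `G`, then some `G`-Galois extension of `k(x)`,
unramified over the affine line, has inertia exactly `P` at a place over infinity. -/
theorem result :
    ∀ (k : Type) [Field k] [IsAlgClosed k] [CharP k 2]
      (G : Type) [Group G] [Finite G] (P : Subgroup G), IsPGroup 2 P →
      Subgroup.normalClosure (P : Set G) = ⊤ →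
      ∃ (L : Type) (_ : Field L) (_ : Algebra (RatFunc k) L)
          (_ : FiniteDimensional (RatFunc k) L) (_ : IsGalois (RatFunc k) L)
          (e : (L ≃ₐ[RatFunc k] L) ≃* G),
          (∀ O : ValuationSubring L,
            (∀ c : k, algebraMap (RatFunc k) L (algebraMap k (RatFunc k) c) ∈ O) →
            algebraMap (RatFunc k) L RatFunc.X ∈ O →
            O.inertiaSubgroup (RatFunc k) = ⊥) ∧
          ∃ O : ValuationSubring L,
            (∀ c : k, algebraMap (RatFunc k) L (algebraMap k (RatFunc k) c) ∈ O) ∧
            algebraMap (RatFunc k) L (RatFunc.X)⁻¹ ∈ O ∧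
            algebraMap (RatFunc k) L RatFunc.X ∉ O ∧
            ((O.inertiaSubgroup (RatFunc k)).map
                (O.decompositionSubgroup (RatFunc k)).subtype).map e.toMonoidHom = P := by
  intro k _ _ _ G _ _ P h1 h2
  exact Pool.Agent.MP_1c8e06_ag.AJ.main_char_two k P h1 h2

end Pool.Agent.Results.MP_1c8e06_ag.CharTwo
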