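import Pool.Agent.Lib.MP_1c8e06_ag.Mg.G018

set_option autoImplicit false

namespace Pool.Agent.Results.MP_1c8e06_ag.PSolvable

/-- The wild part of the inertia conjecture for `p`-solvable groups, every prime `p`: if a finite
group `G` has a chain of normal subgroups whose successive indices are powers of `p` or prime to
`p`, and the conjugates of a `p`-subgroup `P` generate `G`, then some `G`-Galois extension of
`k(x)`, unramified over the affine line, has inertia exactly `P` at a place over infinity. -/
theorem result :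
    ∀ (p : ℕ), p.Prime → ∀ (k : Type) [Field k] [IsAlgClosed k] [CharP k p]
      (G : Type) [Group G] [Finite G],
      (∃ (n : ℕ) (H : ℕ → Subgroup G), H 0 = ⊥ ∧ H n = ⊤ ∧ (∀ i, (H i).Normal) ∧
        (∀ i, H i ≤ H (i + 1)) ∧
        ∀ i, i < n → (∃ m : ℕ, (H i).relIndex (H (i + 1)) = p ^ m) ∨
          ¬ p ∣ (H i).relIndex (H (i + 1))) →
      ∀ P : Subgroup G, IsPGroup p P → Subgroup.normalClosure (P : Set G) = ⊤ →
      ∃ (L : Type) (_ : Field L) (_ : Algebra (RatFunc k) L)
          (_ : FiniteDimensional (RatFunc k) L) (_ : IsGalois (RatFunc k) L)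
          (e : (L ≃ₐ[RatFunc k] L) ≃* G),
          (∀ O : ValuationSubring L,
            (∀ c : k, algebraMap (RatFunc k) L (algebraMap k (RatFunc k) c) ∈ O) →
            algebraMap (RatFunc k) L RatFunc.X ∈ O →
            O.inertiaSubgroup (RatFunc k) = ⊥) ∧
          ∃ O : ValuationSubring L,
            (∀ c : k, algebraMap (RatFunc k) L (algebraMap k (RatFunc k) c) ∈ O) ∧
            algebraMap (RatFunc k) L (RatFunc.X)⁻¹ ∈ O ∧
            algebraMap (RatFunc k) L RatFunc.X ∉ O ∧
            ((O.inertiaSubgroup (RatFunc k)).map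
                (O.decompositionSubgroup (RatFunc k)).subtype).map e.toMonoidHom = P := by
  intro p hp k _ _ _ G _ _ hG P h1 h2
  have : Fact p.Prime := ⟨hp⟩
  exact Pool.Agent.MP_1c8e06_ag.AK.main_p_solvable k hG P h1 h2

end Pool.Agent.Results.MP_1c8e06_ag.PSolvable
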