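import Pool.Agent.Lib.MP_1c8e06_ag.AL.FinSL

set_option autoImplicit false

namespace Pool.Agent.Results.MP_1c8e06_ag.SpecialLinear

/-- The wild part of the inertia conjecture for the extensions of central quotients of `SL_n(F)`,
`F` any finite field of characteristic `p`, by `p`-groups, and all `p`-subgroups `P`: if the
conjugates of `P` generate `G` then some `G`-Galois extension of `k(x)`, unramified over the affine
line, has inertia exactly `P` at a place over infinity. -/
theorem result :
    ∀ (p : ℕ), p.Prime → ∀ (k : Type) [Field k] [IsAlgClosed k] [CharP k p]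
      (F : Type) [Field F] [Finite F] [CharP F p] (n : ℕ), 2 ≤ n →
      ∀ (G : Type) [Group G] [Finite G] (N : Subgroup G) [N.Normal], IsPGroup p N →
      ∀ (ψ : Matrix.SpecialLinearGroup (Fin n) F →* G ⧸ N), Function.Surjective ψ →
      ψ.ker ≤ Subgroup.center (Matrix.SpecialLinearGroup (Fin n) F) →
      ∀ (P : Subgroup G), IsPGroup p P → Subgroup.normalClosure (P : Set G) = ⊤ →
      ∃ (L : Type) (_ : Field L) (_ : Algebra (RatFunc k) L)
          (_ : FiniteDimensional (RatFunc k) L) (_ : IsGalois (RatFunc k) L)
          (e : (L ≃ₐ[RatFunc k] L) ≃* G),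
          (∀ O : ValuationSubring L,
            (∀ c : k, algebraMap (RatFunc k) L (algebraMap k (RatFunc k) c) ∈ O) →
            algebraMap (RatFunc k) L RatFunc.X ∈ O →
            O.inertiaSubgroup (RatFunc k) = ⊥) ∧
          ∃ O : ValuationSubring L,
            (∀ c : k, algebraMap (RatFunc k) L (algebraMap k (RatFunc k) c) ∈ O) ∧
            algebraMap (RatFunc k) L (RatFunc.X)⁻¹ ∈ O ∧
            algebraMap (RatFunc k) L RatFunc.X ∉ O ∧
            ((O.inertiaSubgroup (RatFunc k)).map
                (O.decompositionSubgroup (RatFunc k)).subtype).map e.toMonoidHom = P := by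
  intro p hp k _ _ _ F _ _ _ n hn G _ _ N _ hN ψ hψ hker P hP hgen
  have hp' : Fact p.Prime := ⟨hp⟩
  exact Pool.Agent.MP_1c8e06_ag.AL.SLn_realised k n hn N hN ψ hψ hker P hP hgen

end Pool.Agent.Results.MP_1c8e06_ag.SpecialLinear
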