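import Pool.Agent.Lib.MP_1c8e06_ag.Mg.G038

set_option autoImplicit false

namespace Pool.Agent.Results.MP_1c8e06_ag.UniqueMaximal

/-- The wild part of the inertia conjecture for `p = 2` and all finite groups, and for `p` odd and
all finite groups `G` without a section `A = T ⟨y⟩` where `T` is a simple normal subgroup of order
divisible by `p` with trivial centraliser and `y` is an element of order `p` which lies in exactly
one maximal subgroup of `A`: if the conjugates of a `p`-subgroup `P` generate `G`, then some
`G`-Galois extension of `k(x)`, unramified over the affine line, has inertia exactly `P` at a place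
over infinity. -/
theorem result :
    ∀ (p : ℕ), p.Prime → ∀ (k : Type) [Field k] [IsAlgClosed k] [CharP k p]
      (G : Type) [Group G] [Finite G],
      (p ≠ 2 → ∀ (L : Subgroup G) (A : Type) [Group A] (f : L →* A) (T : Subgroup A) (y : A),
        Function.Surjective f → T.Normal → IsSimpleGroup T →
        Subgroup.centralizer (T : Set A) = ⊥ → p ∣ Nat.card T → orderOf y = p →
        T ⊔ Subgroup.zpowers y = ⊤ → ¬ ∃! M : Subgroup A, IsCoatom M ∧ y ∈ M) →
      ∀ P : Subgroup G, IsPGroup p P → Subgroup.normalClosure (P : Set G) = ⊤ →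
      ∃ (L : Type) (_ : Field L) (_ : Algebra (RatFunc k) L)
          (_ : FiniteDimensional (RatFunc k) L) (_ : IsGalois (RatFunc k) L)
          (e : (L ≃ₐ[RatFunc k] L) ≃* G),
          (∀ O : ValuationSubring L,
            (∀ c : k, algebraMap (RatFunc k) L (algebraMap k (RatFunc k) c) ∈ O) →
            algebraMap (RatFunc k) L RatFunc.X ∈ O →
            O.inertiaSubgroup (RatFunc k) = ⊥) ∧
          ∃ O : ValuationSubring L,
            (∀ c : k, algebraMap (RatFunc k) L (algebraMap k (RatFunc k) c) ∈ O) ∧
            algebraMap (RatFunc k) L (RatFunc.X)⁻¹ ∈ O ∧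
            algebraMap (RatFunc k) L RatFunc.X ∉ O ∧
            ((O.inertiaSubgroup (RatFunc k)).map
                (O.decompositionSubgroup (RatFunc k)).subtype).map e.toMonoidHom = P := by
  intro p hp k _ _ _ G _ _ hG P h1 h2
  by_cases hp2 : p = 2
  · subst hp2
    exact Pool.Agent.MP_1c8e06_ag.AJ.main_char_two k P h1 h2
  · have : Fact p.Prime := ⟨hp⟩
    refine Pool.Agent.MP_1c8e06_ag.AU.main_au k ?_ P h1 h2
    rintro L A _ f hf ⟨T, y, hT, hTs, hTc, hpT, hy, hTy, hM⟩
    exact hG hp2 L A f T y hf hT hTs hTc hpT hy hTy hM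

end Pool.Agent.Results.MP_1c8e06_ag.UniqueMaximal
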